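import Pool.Agent.Helper95.WS.St

set_option autoImplicit false

namespace Pool.Agent.Helper42.WS

open Pool.Agent.Helper95.WS Polynomial IntermediateField

/-- the norm of a polynomial in the generator of a simple extension is a resultant -/
theorem norm_gen_aeval (F K : Type) [Field F] [Fintype F] [Field K] [Fintype K] [Algebra F K]
    (x : K) (g : F[X]) (n : ℕ) (hn : g.natDegree ≤ n) :
    Algebra.norm F (aeval (AdjoinSimple.gen F x) g) =
      resultant (minpoly F x) g (minpoly F x).natDegree n := by
  classical
  have hx : IsIntegral F x := Algebra.IsIntegral.isIntegral x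
  have hfd : FiniteDimensional F F⟮x⟯ := adjoin.finiteDimensional hx
  set E := AlgebraicClosure F
  apply (algebraMap F E).injective
  rw [Algebra.norm_eq_prod_embeddings F E, ← resultant_map_map,
    ← natDegree_map (p := minpoly F x) (algebraMap F E),
    resultant_eq_prod_eval _ _ _ (by rw [natDegree_map]; exact hn) (IsAlgClosed.splits _),
    leadingCoeff_map, (minpoly.monic hx).leadingCoeff, map_one, one_pow, one_mul]
  rw [Fintype.prod_equiv (algHomAdjoinIntegralEquiv F (K := E) hx)
    (fun σ => σ (aeval (AdjoinSimple.gen F x) g)) (fun y => (g.map (algebraMap F E)).eval (y : E)) ?_]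
  · rw [Finset.prod_mem_multiset ((minpoly F x).aroots E)
      (fun y => (g.map (algebraMap F E)).eval (y : E))
      (fun y => (g.map (algebraMap F E)).eval y) (fun _ => rfl)]
    rw [Finset.prod_eq_multiset_prod, Multiset.toFinset_val, Multiset.dedup_eq_self.mpr]
    have hsep : (minpoly F x).Separable := Algebra.IsSeparable.isSeparable F x
    exact nodup_roots hsep.map
  · intro σ
    have h1 : ((algHomAdjoinIntegralEquiv F (K := E) hx) σ : E) = σ (AdjoinSimple.gen F x) := by
      have h2 := algHomAdjoinIntegralEquiv_symm_apply_gen F hx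
        ((algHomAdjoinIntegralEquiv F (K := E) hx) σ)
      rw [Equiv.symm_apply_apply] at h2
      exact h2.symm
    rw [h1, eval_map_algebraMap, aeval_algHom_apply]

/-- **W2** -/
theorem hW2 : StW2 := by
  intro F K _ _ _ _ _ x
  have hx : IsIntegral F x := Algebra.IsIntegral.isIntegral x
  have hfd : FiniteDimensional F F⟮x⟯ := adjoin.finiteDimensional hx
  have hfr : Module.finrank F F⟮x⟯ = (minpoly F x).natDegree := adjoin.finrank hx
  have hmul : Module.finrank F F⟮x⟯ * Module.finrank F⟮x⟯ K = Module.finrank F K :=
    Module.finrank_mul_finrank F F⟮x⟯ K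
  refine ⟨⟨Module.finrank F⟮x⟯ K, by rw [← hmul, hfr]⟩, ?_⟩
  intro g n hn
  have hpos : 0 < (minpoly F x).natDegree := minpoly.natDegree_pos hx
  have hdiv : Module.finrank F K / (minpoly F x).natDegree = Module.finrank F⟮x⟯ K := by
    rw [← hmul, hfr]
    exact Nat.mul_div_cancel_left _ hpos
  rw [hdiv, ← norm_gen_aeval F K x g n hn]
  have h1 : aeval x g = algebraMap F⟮x⟯ K (aeval (AdjoinSimple.gen F x) g) := by
    rw [← aeval_algebraMap_apply]
    rfl
  rw [h1, ← Algebra.norm_norm (S := F⟮x⟯), Algebra.norm_algebraMap, map_pow]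

end Pool.Agent.Helper42.WS
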