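import Pool.Agent.Helper95.WS.St

set_option autoImplicit false

namespace Pool.Agent.Helper42.WS

open Pool.Agent.Helper95.WS Polynomial UniqueFactorizationMonoid
open scoped Classical

section W6

variable {F : Type} [Field F] [Fintype F]

/-- the number of powers of `P` dividing `h` is the multiplicity -/
theorem count_powers (h P : F[X]) (hh : h ≠ 0) (hP : Irreducible P) (hPm : P.Monic) (n : ℕ)
    (hn : h.natDegree ≤ n) :
    ((Finset.Icc 1 n).filter (fun j => P ^ j ∣ h)).card = (normalizedFactors h).count P := by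
  have h1 := emultiplicity_eq_count_normalizedFactors hP hh
  rw [hPm.normalize_eq_self] at h1
  have h2 : ∀ j : ℕ, P ^ j ∣ h ↔ j ≤ (normalizedFactors h).count P := by
    intro j
    rw [pow_dvd_iff_le_emultiplicity, h1]
    exact Nat.cast_le
  have hd : 1 ≤ P.natDegree := hP.natDegree_pos
  have h3 : (normalizedFactors h).count P ≤ n := by
    have h4 := (h2 _).2 le_rfl
    have h5 := Polynomial.natDegree_le_of_dvd h4 hh
    rw [Polynomial.natDegree_pow] at h5
    nlinarith
  have h4 : (Finset.Icc 1 n).filter (fun j => P ^ j ∣ h) =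
      Finset.Icc 1 ((normalizedFactors h).count P) := by
    ext j
    rw [Finset.mem_filter, Finset.mem_Icc, Finset.mem_Icc, h2 j]
    omega
  rw [h4, Nat.card_Icc]
  omega

/-- the degree as a sum over irreducible monic polynomials -/
theorem deg_sum (hM : ∀ (n : ℕ) (h : F[X]), h ∈ Mn F n ↔ h.Monic ∧ h.natDegree = n)
    (n : ℕ) (h : F[X]) (hh : h ∈ Mn F n) :
    n = ∑ e ∈ Finset.Icc 1 n, ∑ P ∈ (Mn F e).filter Irreducible,
      e * ((Finset.Icc 1 n).filter (fun j => P ^ j ∣ h)).card := by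
  obtain ⟨hm, hd⟩ := (hM n h).1 hh
  have hne : h ≠ 0 := hm.ne_zero
  have hprod : (normalizedFactors h).prod = h := by
    rw [prod_normalizedFactors_eq hne, hm.normalize_eq_self]
  have h0 : (0 : F[X]) ∉ normalizedFactors h := by
    intro h0
    exact (prime_of_normalized_factor 0 h0).ne_zero rfl
  have h1 : n = ((normalizedFactors h).map natDegree).sum := by
    rw [← Polynomial.natDegree_multiset_prod _ h0, hprod, hd]
  have hmem : ∀ P ∈ normalizedFactors h, P.Monic ∧ Irreducible P ∧ P ∣ h := by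
    intro P hP
    refine ⟨?_, irreducible_of_normalized_factor P hP, dvd_of_mem_normalizedFactors hP⟩
    have h2 := normalize_normalized_factor P hP
    have h3 : P ≠ 0 := fun h => h0 (h ▸ hP)
    rw [← h2]
    exact Polynomial.monic_normalize h3
  conv_lhs => rw [h1, Finset.sum_multiset_map_count]
  rw [← Finset.sum_fiberwise_of_maps_to (s := (normalizedFactors h).toFinset)
    (t := Finset.Icc 1 n) (g := natDegree)]
  · apply Finset.sum_congr rfl
    intro e he
    rw [Finset.mem_Icc] at he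
    have hsub : (normalizedFactors h).toFinset.filter (fun P => P.natDegree = e) ⊆
        (Mn F e).filter Irreducible := by
      intro P hP
      rw [Finset.mem_filter, Multiset.mem_toFinset] at hP
      obtain ⟨h2, h3, h4⟩ := hmem P hP.1
      rw [Finset.mem_filter, hM]
      exact ⟨⟨h2, hP.2⟩, h3⟩
    rw [← Finset.sum_subset hsub]
    · apply Finset.sum_congr rfl
      intro P hP
      have hP' := Finset.mem_filter.1 (hsub hP)
      rw [count_powers h P hne hP'.2 ((hM e P).1 hP'.1).1 n hd.le, ((hM e P).1 hP'.1).2,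
        smul_eq_mul, mul_comm]
    · intro P hP hP2
      rw [Finset.mem_filter, hM] at hP
      rw [count_powers h P hne hP.2 hP.1.1 n hd.le]
      have : (normalizedFactors h).count P = 0 := by
        rw [Multiset.count_eq_zero]
        intro hc
        apply hP2
        rw [Finset.mem_filter, Multiset.mem_toFinset]
        exact ⟨hc, hP.1.2⟩
      rw [this, mul_zero]
  · intro P hP
    rw [Multiset.mem_toFinset] at hP
    obtain ⟨h2, h3, h4⟩ := hmem P hP
    rw [Finset.mem_Icc]
    refine ⟨h3.natDegree_pos, ?_⟩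
    rw [← hd]
    exact Polynomial.natDegree_le_of_dvd h4 hne

end W6

/-- **W6** -/
theorem hW6 (hW1 : StW1) : StW6 := by
  intro F _ _ ψ f n
  obtain ⟨hM, -, -, hsum, hemp⟩ := hW1 F ψ f
  -- the left side
  have h1 : (n : ℂ) * AA ψ f n = ∑ h ∈ Mn F n, ∑ e ∈ Finset.Icc 1 n,
      ∑ P ∈ (Mn F e).filter Irreducible, ∑ j ∈ Finset.Icc 1 n,
        (if P ^ j ∣ h then (e : ℂ) * lam ψ f h else 0) := by
    rw [AA, Finset.mul_sum]
    apply Finset.sum_congr rfl
    intro h hh
    have h2 := deg_sum hM n h hh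
    have h3 : (n : ℂ) = ∑ e ∈ Finset.Icc 1 n, ∑ P ∈ (Mn F e).filter Irreducible,
        (e : ℂ) * (((Finset.Icc 1 n).filter (fun j => P ^ j ∣ h)).card : ℂ) := by
      conv_lhs => rw [h2]
      push_cast
      rfl
    rw [h3, Finset.sum_mul]
    apply Finset.sum_congr rfl
    intro e _
    rw [Finset.sum_mul]
    apply Finset.sum_congr rfl
    intro P _
    rw [← Finset.sum_filter, Finset.sum_const, nsmul_eq_mul]
    ring
  have h2 : ∀ e ∈ Finset.Icc 1 n, ∀ P ∈ (Mn F e).filter Irreducible, ∀ j ∈ Finset.Icc 1 n,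
      ∑ h ∈ Mn F n, (if P ^ j ∣ h then (e : ℂ) * lam ψ f h else 0) =
        if j * e ≤ n then (e : ℂ) * lam ψ f P ^ j * AA ψ f (n - j * e) else 0 := by
    intro e _ P hP j _
    rw [Finset.mem_filter] at hP
    rw [← Finset.sum_filter, ← Finset.mul_sum]
    split_ifs with h
    · rw [hsum n e j P hP.1 h]
      ring
    · rw [hemp n e j P hP.1 (by omega)]
      simp
  have h3 : (n : ℂ) * AA ψ f n = ∑ e ∈ Finset.Icc 1 n, ∑ j ∈ Finset.Icc 1 n,
      if j * e ≤ n then ∑ P ∈ (Mn F e).filter Irreducible,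
        (e : ℂ) * lam ψ f P ^ j * AA ψ f (n - j * e) else 0 := by
    rw [h1, Finset.sum_comm]
    apply Finset.sum_congr rfl
    intro e he
    rw [Finset.sum_comm]
    have h4 : ∀ P ∈ (Mn F e).filter Irreducible,
        ∑ h ∈ Mn F n, ∑ j ∈ Finset.Icc 1 n, (if P ^ j ∣ h then (e : ℂ) * lam ψ f h else 0) =
        ∑ j ∈ Finset.Icc 1 n, if j * e ≤ n then
          (e : ℂ) * lam ψ f P ^ j * AA ψ f (n - j * e) else 0 := by
      intro P hP
      rw [Finset.sum_comm]
      apply Finset.sum_congr rfl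
      intro j hj
      exact h2 e he P hP j hj
    rw [Finset.sum_congr rfl h4, Finset.sum_comm]
    apply Finset.sum_congr rfl
    intro j _
    split_ifs with h
    · rfl
    · simp
  rw [h3, ← Finset.sum_product', ← Finset.sum_filter]
  have h5 : ∑ r ∈ Finset.Icc 1 n, PS ψ f r * AA ψ f (n - r) =
      ∑ x ∈ (Finset.Icc 1 n).sigma (fun r => r.divisors),
        ∑ P ∈ (Mn F x.2).filter Irreducible,
          (x.2 : ℂ) * lam ψ f P ^ (x.1 / x.2) * AA ψ f (n - x.1) := by
    rw [Finset.sum_sigma]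
    apply Finset.sum_congr rfl
    intro r _
    rw [PS, Finset.sum_mul]
    apply Finset.sum_congr rfl
    intro e _
    rw [Finset.sum_mul]
  rw [h5]
  apply Finset.sum_bij' (fun (x : ℕ × ℕ) _ => (⟨x.2 * x.1, x.1⟩ : Σ _ : ℕ, ℕ))
    (fun (y : Σ _ : ℕ, ℕ) _ => (y.2, y.1 / y.2))
  · intro x hx
    rw [Finset.mem_filter, Finset.mem_product, Finset.mem_Icc, Finset.mem_Icc] at hx
    rw [Finset.mem_sigma, Finset.mem_Icc, Nat.mem_divisors]
    have h6 : 1 ≤ x.2 * x.1 := Nat.mul_pos (by omega) (by omega)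
    exact ⟨⟨h6, hx.2⟩, Dvd.intro_left _ rfl, Nat.pos_iff_ne_zero.1 h6⟩
  · intro y hy
    rw [Finset.mem_sigma, Finset.mem_Icc, Nat.mem_divisors] at hy
    obtain ⟨hy1, hy2, hy3⟩ := hy
    rw [Finset.mem_filter, Finset.mem_product, Finset.mem_Icc, Finset.mem_Icc]
    have h6 : 0 < y.2 := Nat.pos_of_dvd_of_pos hy2 (by omega)
    have h7 : y.2 ≤ y.1 := Nat.le_of_dvd (by omega) hy2
    have h8 : 0 < y.1 / y.2 := Nat.div_pos h7 h6
    have h9 : y.1 / y.2 ≤ y.1 := Nat.div_le_self _ _
    have h10 : y.1 / y.2 * y.2 = y.1 := Nat.div_mul_cancel hy2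
    simp only
    refine ⟨⟨⟨h6, by omega⟩, ⟨h8, by omega⟩⟩, ?_⟩
    rw [h10]
    exact hy1.2
  · intro x hx
    rw [Finset.mem_filter, Finset.mem_product, Finset.mem_Icc, Finset.mem_Icc] at hx
    have h6 : 0 < x.1 := by omega
    simp only
    rw [Nat.mul_div_cancel _ h6]
  · intro y hy
    rw [Finset.mem_sigma, Finset.mem_Icc, Nat.mem_divisors] at hy
    obtain ⟨hy1, hy2, hy3⟩ := hy
    have h10 : y.1 / y.2 * y.2 = y.1 := Nat.div_mul_cancel hy2
    simp only [h10]
  · intro x hx
    rw [Finset.mem_filter, Finset.mem_product, Finset.mem_Icc, Finset.mem_Icc] at hx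
    have h6 : 0 < x.1 := by omega
    simp only
    rw [Nat.mul_div_cancel _ h6]

end Pool.Agent.Helper42.WS
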