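import Pool.Agent.Helper95.WS.St

set_option autoImplicit false

namespace Pool.Agent.Helper42.WS

open Pool.Agent.Helper95.WS Polynomial

/-- Newton identities for a multiset of complex numbers -/
theorem newton_ms (s : Multiset ℂ) (k : ℕ) :
    (k : ℂ) * s.esymm k = (-1) ^ (k + 1) *
      ∑ a ∈ (Finset.HasAntidiagonal.antidiagonal k).filter (fun a => a.1 < k),
        (-1) ^ a.1 * s.esymm a.1 * (s.map (fun α => α ^ a.2)).sum := by
  set l := s.toList with hl
  have hmap : (Finset.univ : Finset (Fin l.length)).val.map (fun i => l.get i) = s := by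
    rw [Fin.univ_val_map, List.ofFn_get, hl, Multiset.coe_toList]
  have hn := MvPolynomial.mul_esymm_eq_sum (Fin l.length) ℂ k
  have hn2 := congrArg (MvPolynomial.aeval (fun i => l.get i)) hn
  have he : ∀ n, MvPolynomial.aeval (fun i => l.get i)
      (MvPolynomial.esymm (Fin l.length) ℂ n) = s.esymm n := by
    intro n
    rw [MvPolynomial.aeval_esymm_eq_multiset_esymm, hmap]
  have hp : ∀ n, MvPolynomial.aeval (fun i => l.get i)
      (MvPolynomial.psum (Fin l.length) ℂ n) = (s.map (fun α => α ^ n)).sum := by
    intro n
    rw [MvPolynomial.psum, map_sum]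
    simp only [map_pow, MvPolynomial.aeval_X]
    conv_rhs => rw [← hmap, Multiset.map_map]
    rfl
  simp only [map_mul, map_natCast, map_pow, map_neg, map_one, map_sum, he, hp] at hn2
  exact hn2

/-- **W8** -/
theorem hW8 : StW8 := by
  intro d A S hd hA0 hA hS
  -- the polynomial
  set Q : ℂ[X] := ∑ n ∈ Finset.range d, C (A n) * X ^ (d - 1 - n) with hQ
  have hcoeff : ∀ m, m ≤ d - 1 → Q.coeff (d - 1 - m) = A m := by
    intro m hm
    rw [hQ, Polynomial.finsetSum_coeff]
    simp only [Polynomial.coeff_C_mul, Polynomial.coeff_X_pow]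
    rw [Finset.sum_eq_single m]
    · simp
    · intro b hb hbm
      rw [Finset.mem_range] at hb
      rw [if_neg (by omega)]
      ring
    · intro h
      rw [Finset.mem_range] at h
      omega
  have hdeg : Q.natDegree ≤ d - 1 := by
    rw [hQ]
    apply Polynomial.natDegree_sum_le_of_forall_le
    intro n hn
    refine (Polynomial.natDegree_C_mul_X_pow_le _ _).trans ?_
    omega
  have hlead : Q.coeff (d - 1) = 1 := by
    have := hcoeff 0 (by omega)
    rw [hA0] at this
    simpa using this
  have hmonic : Q.Monic := Polynomial.monic_of_natDegree_le_of_coeff_eq_one (d - 1) hdeg hlead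
  have hnd : Q.natDegree = d - 1 := by
    apply le_antisymm hdeg
    apply Polynomial.le_natDegree_of_ne_zero
    rw [hlead]
    exact one_ne_zero
  have hcard : Multiset.card Q.roots = d - 1 := by
    rw [← hnd]
    exact (Polynomial.splits_iff_card_roots.1 (IsAlgClosed.splits Q))
  have hprod : (Q.roots.map (fun α => X - C α)).prod = Q :=
    Polynomial.prod_multiset_X_sub_C_of_monic_of_roots_card_eq hmonic (hcard.trans hnd.symm)
  set s : Multiset ℂ := Q.roots with hs
  -- Vieta
  have hV : ∀ n, A n = (-1) ^ n * s.esymm n := by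
    intro n
    rcases Nat.lt_or_ge n d with h | h
    · rw [← hcoeff n (by omega)]
      conv_lhs => rw [← hprod]
      rw [Multiset.prod_X_sub_C_coeff s (by omega), hcard]
      have : d - 1 - (d - 1 - n) = n := by omega
      rw [this]
    · rw [hA n h, Multiset.esymm, Multiset.powersetCard_eq_empty n (by rw [hcard]; omega)]
      simp
  refine ⟨s, hcard, ?_, ?_⟩
  · -- Newton
    have hN : ∀ n : ℕ, (n : ℂ) * A n =
        ∑ r ∈ Finset.Icc 1 n, (-(s.map (fun α => α ^ r)).sum) * A (n - r) := by
      intro n
      have h1 := newton_ms s n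
      rw [hV n]
      have h2 : (n : ℂ) * ((-1) ^ n * s.esymm n) = (-1) ^ n * ((n : ℂ) * s.esymm n) := by ring
      rw [h2, h1, ← mul_assoc, ← pow_add, Finset.mul_sum]
      have h3 : ((-1 : ℂ)) ^ (n + (n + 1)) = -1 := by
        rw [show n + (n + 1) = 2 * n + 1 by ring, pow_succ, pow_mul]
        norm_num
      rw [h3]
      apply Finset.sum_bij' (fun a _ => a.2) (fun r _ => (n - r, r))
      · intro a ha
        rw [Finset.mem_filter, Finset.HasAntidiagonal.mem_antidiagonal] at ha
        rw [Finset.mem_Icc]
        omega
      · intro r hr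
        rw [Finset.mem_Icc] at hr
        rw [Finset.mem_filter, Finset.HasAntidiagonal.mem_antidiagonal]
        simp only
        omega
      · intro a ha
        rw [Finset.mem_filter, Finset.HasAntidiagonal.mem_antidiagonal] at ha
        ext
        · simp only
          omega
        · rfl
      · intro r _
        rfl
      · intro a ha
        rw [Finset.mem_filter, Finset.HasAntidiagonal.mem_antidiagonal] at ha
        have h4 : n - a.2 = a.1 := by omega
        rw [hV (n - a.2), h4]
        ring
    intro r
    induction r using Nat.strong_induction_on with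
    | _ r ih =>
      intro hr
      have e1 := hS r
      rw [hN r] at e1
      have hsplit : ∀ f : ℕ → ℂ, ∑ i ∈ Finset.Icc 1 r, f i = ∑ i ∈ Finset.Icc 1 (r - 1), f i + f r := by
        intro f
        obtain ⟨q, rfl⟩ : ∃ q, r = q + 1 := ⟨r - 1, by omega⟩
        rw [Finset.sum_Icc_succ_top (by omega)]
        rfl
      rw [hsplit, hsplit] at e1
      have e2 : ∑ i ∈ Finset.Icc 1 (r - 1), (-(s.map (fun α => α ^ i)).sum) * A (r - i) =
          ∑ i ∈ Finset.Icc 1 (r - 1), S i * A (r - i) := by
        apply Finset.sum_congr rfl
        intro i hi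
        rw [Finset.mem_Icc] at hi
        rw [ih i (by omega) hi.1]
      rw [e2, Nat.sub_self, hA0] at e1
      have e3 := add_left_cancel e1
      rw [mul_one, mul_one] at e3
      exact e3.symm
  · intro z
    have h1 := congrArg (Polynomial.eval z) hprod
    rw [Polynomial.eval_multiset_prod, Multiset.map_map] at h1
    have h2 : (s.map (fun α => z - α)).prod = Polynomial.eval z Q := by
      rw [← h1]
      congr 1
      apply Multiset.map_congr rfl
      intro α _
      simp
    rw [h2, hQ, Polynomial.eval_finsetSum]
    apply Finset.sum_congr rfl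
    intro n _
    simp

end Pool.Agent.Helper42.WS
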